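import Mathlib

/-!
# Package CH of project EN: Cayley-Hamilton
-/

set_option autoImplicit false

namespace Pool.Agent.Helper38.EN

open Polynomial Matrix

section

variable {K V I : Type*} [Field K] [CharZero K] [AddCommGroup V] [Module K V] [Fintype I]
    [DecidableEq I]

omit [CharZero K] in
theorem pow_comb (Ψ : V →ₗ[K] V) (e : I → V) (G : Matrix I I K)
    (hΨ : ∀ i, Ψ (e i) = ∑ j, G j i • e j) (n : ℕ) (t : I → K) :
    (Ψ ^ n) (Fintype.linearCombination K e t) = Fintype.linearCombination K e ((G ^ n) *ᵥ t) := by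
  have h1 : ∀ t : I → K, Ψ (Fintype.linearCombination K e t) =
      Fintype.linearCombination K e (G *ᵥ t) := by
    intro t
    rw [Fintype.linearCombination_apply, Fintype.linearCombination_apply, map_sum]
    simp only [map_smul, hΨ, Finset.smul_sum, smul_smul]
    rw [Finset.sum_comm]
    refine Finset.sum_congr rfl fun j _ => ?_
    rw [← Finset.sum_smul]
    congr 1
    rw [Matrix.mulVec, dotProduct]
    exact Finset.sum_congr rfl fun i _ => mul_comm _ _
  induction n generalizing t with
  | zero => simp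
  | succ n ih =>
    rw [pow_succ, Module.End.mul_apply, h1, ih, pow_succ, Matrix.mulVec_mulVec]

omit [CharZero K] in
theorem aeval_comb (Ψ : V →ₗ[K] V) (e : I → V) (G : Matrix I I K)
    (hΨ : ∀ i, Ψ (e i) = ∑ j, G j i • e j) (q : K[X]) (t : I → K) :
    (aeval Ψ q) (Fintype.linearCombination K e t) =
      Fintype.linearCombination K e ((aeval G q) *ᵥ t) := by
  induction q using Polynomial.induction_on' with
  | add p q hp hq =>
    rw [map_add, LinearMap.add_apply, hp, hq, map_add, Matrix.add_mulVec, map_add]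
  | monomial n c =>
    rw [aeval_monomial, aeval_monomial, Module.End.mul_apply, pow_comb Ψ e G hΨ,
      Module.algebraMap_end_apply, ← Matrix.mulVec_mulVec, ← map_smul]
    congr 1
    rw [Algebra.algebraMap_eq_smul_one, Matrix.smul_mulVec, Matrix.one_mulVec]

theorem ch (Ψ : V →ₗ[K] V) (e : I → V) (G : Matrix I I ℚ)
    (hΨ : ∀ i, Ψ (e i) = ∑ j, (G j i : K) • e j) (hG : ∀ t : I → ℚ, G.mulVec t = 0 → t = 0)
    (S : AddSubgroup V) (hSq : ∀ (c : ℚ), ∀ y ∈ S, (c : K) • y ∈ S) (hS : ∀ y ∈ S, Ψ y ∈ S)
    (x : V) (hx : x ∈ Submodule.span K (Set.range e)) (h : Ψ x ∈ S) : x ∈ S := by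
  have hclos : ∀ (q : ℚ[X]), ∀ y ∈ S, aeval Ψ (q.map (algebraMap ℚ K)) y ∈ S := by
    intro q
    induction q using Polynomial.induction_on' with
    | add p q hp hq =>
      intro y hy
      rw [Polynomial.map_add, map_add, LinearMap.add_apply]
      exact S.add_mem (hp y hy) (hq y hy)
    | monomial n c =>
      intro y hy
      rw [Polynomial.map_monomial, aeval_monomial, Module.End.mul_apply,
        Module.algebraMap_end_apply]
      have h1 : (Ψ ^ n) y ∈ S := by
        clear hx h
        induction n with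
        | zero => simpa using hy
        | succ n ih =>
          rw [pow_succ', Module.End.mul_apply]
          exact hS _ ih
      have h2 := hSq c _ h1
      rwa [eq_ratCast]
  have hdet : G.det ≠ 0 := by
    intro h0
    obtain ⟨v, hv, hv'⟩ := Matrix.exists_mulVec_eq_zero_iff.2 h0
    exact hv (hG v hv')
  have hc : G.charpoly.coeff 0 ≠ 0 := by
    intro h0
    apply hdet
    rw [Matrix.det_eq_sign_charpoly_coeff, h0, mul_zero]
  obtain ⟨t, ht⟩ : ∃ t : I → K, Fintype.linearCombination K e t = x := by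
    have h1 : x ∈ LinearMap.range (Fintype.linearCombination K e) := by
      rwa [Fintype.range_linearCombination]
    exact h1
  have hΨ' : ∀ i, Ψ (e i) = ∑ j, (G.map (algebraMap ℚ K)) j i • e j := by
    intro i
    rw [hΨ i]
    refine Finset.sum_congr rfl fun j _ => ?_
    rw [Matrix.map_apply, eq_ratCast]
  have hzero : aeval Ψ (G.charpoly.map (algebraMap ℚ K)) x = 0 := by
    rw [← ht, aeval_comb Ψ e _ hΨ', ← Matrix.charpoly_map, Matrix.aeval_self_charpoly,
      Matrix.zero_mulVec, map_zero]
  have hsplit : aeval Ψ (G.charpoly.map (algebraMap ℚ K)) x =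
      aeval Ψ (G.charpoly.divX.map (algebraMap ℚ K)) (Ψ x) +
        ((G.charpoly.coeff 0 : ℚ) : K) • x := by
    conv_lhs => rw [← Polynomial.divX_mul_X_add G.charpoly]
    rw [Polynomial.map_add, Polynomial.map_mul, Polynomial.map_X, Polynomial.map_C, map_add,
      map_mul, aeval_X, aeval_C, LinearMap.add_apply, Module.End.mul_apply,
      Module.algebraMap_end_apply, eq_ratCast]
  have h1 := hclos G.charpoly.divX (Ψ x) h
  have h2 : ((G.charpoly.coeff 0 : ℚ) : K) • x =
      -(aeval Ψ (G.charpoly.divX.map (algebraMap ℚ K)) (Ψ x)) := by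
    rw [eq_neg_iff_add_eq_zero, add_comm, ← hsplit, hzero]
  have h3 : x = (((G.charpoly.coeff 0)⁻¹ : ℚ) : K) • (((G.charpoly.coeff 0 : ℚ) : K) • x) := by
    rw [smul_smul, ← Rat.cast_mul, inv_mul_cancel₀ hc, Rat.cast_one, one_smul]
  rw [h3]
  refine hSq _ _ ?_
  rw [h2]
  exact S.neg_mem h1

end

end Pool.Agent.Helper38.EN
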